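import Pool.Agent.H462R2.PiE2
import Pool.Agent.H364R2.PiE

/-!
# Consequences of a linear relation between `1`, `e` and `π` with algebraic coefficients

Uses the strong six exponentials theorem of `Pool.Agent.H301R2.SSE` (starting library). The lemmas
`dvd_of_dep` and `powers` are copied from `MP_ee2255_nt.OneClass` (helper585).
-/

set_option autoImplicit false

namespace Pool.Agent.H118R4.EP

open Pool.Agent.H462R2.PiE Pool.Agent.H301R2.SSE Pool.Agent.H340R2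

/-- two multiplicatively dependent integers with the same ordering as under divisibility -/
theorem dvd_of_dep (m n : ℕ) (hm : 2 ≤ m) (hn : 2 ≤ n) (hmn : m ≤ n) (h : ¬ Indep ![m, n]) :
    m ∣ n := by
  by_contra hnd
  have hm0 : m ≠ 0 := by omega
  have hn0 : n ≠ 0 := by omega
  have h1 : ∃ p : ℕ, p.Prime ∧ n.factorization p < m.factorization p := by
    by_contra hcon
    push Not at hcon
    exact hnd ((Nat.factorization_prime_le_iff_dvd hm0 hn0).mp hcon)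
  obtain ⟨p, hp, hlt⟩ := h1
  have : Fact p.Prime := ⟨hp⟩
  have hdvd : n ∣ m := by
    rw [← Nat.factorization_prime_le_iff_dvd hn0 hm0]
    intro r hr
    have : Fact r.Prime := ⟨hr⟩
    have h2 := val_two m n hm hn h p r
    rw [Nat.factorization_def _ hr, Nat.factorization_def _ hr]
    rw [Nat.factorization_def _ hp, Nat.factorization_def _ hp] at hlt
    have h3 : padicValNat p m * padicValNat r n = padicValNat r m * padicValNat p n := by
      exact_mod_cast h2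
    have h4 : padicValNat p m * padicValNat r n ≤ padicValNat p m * padicValNat r m := by
      rw [h3, mul_comm (padicValNat r m)]
      exact Nat.mul_le_mul_right _ hlt.le
    exact Nat.le_of_mul_le_mul_left h4 (by omega)
  have : n = m := le_antisymm (Nat.le_of_dvd (by omega) hdvd) hmn
  rw [this] at hnd
  exact hnd dvd_rfl

theorem powers (S : Set ℕ) (h2 : ∀ n ∈ S, 2 ≤ n) (hdep : ∀ m ∈ S, ∀ n ∈ S, ¬ Indep ![m, n])
    (hdiv : ∀ m ∈ S, ∀ k : ℕ, 2 ≤ k → m * k ∈ S → k ∈ S) :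
    ∃ r : ℕ, 2 ≤ r ∧ ∀ n ∈ S, ∃ k : ℕ, n = r ^ k := by
  classical
  rcases S.eq_empty_or_nonempty with rfl | hne
  · exact ⟨2, le_rfl, by simp⟩
  · set r := sInf S with hr
    have hrS : r ∈ S := Nat.sInf_mem hne
    have hr2 : 2 ≤ r := h2 r hrS
    refine ⟨r, hr2, ?_⟩
    intro n
    induction n using Nat.strong_induction_on with
    | _ n ih =>
      intro hn
      have hrn : r ≤ n := Nat.sInf_le hn
      obtain ⟨k, hk⟩ := dvd_of_dep r n hr2 (h2 n hn) hrn (hdep r hrS n hn)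
      have hk0 : k ≠ 0 := by
        rintro rfl
        have := h2 n hn
        omega
      rcases Nat.lt_or_ge k 2 with h | h
      · have : k = 1 := by omega
        exact ⟨1, by rw [hk, this]; ring⟩
      · have hkS : k ∈ S := hdiv r hrS k h (hk ▸ hn)
        have hkn : k < n := by
          rw [hk]
          nlinarith
        obtain ⟨j, hj⟩ := ih k hkn hkS
        exact ⟨j + 1, by rw [hk, hj, pow_succ]; ring⟩

/-- `e` as a complex number -/
noncomputable abbrev E : ℂ := ((Real.exp 1 : ℝ) : ℂ)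

/-- `π` as a complex number -/
noncomputable abbrev P : ℂ := ((Real.pi : ℝ) : ℂ)

/-- `log n` as a complex number -/
noncomputable abbrev L (n : ℕ) : ℂ := ((Real.log n : ℝ) : ℂ)

theorem form {a b c : ℂ} (ha : IsAlgebraic ℚ a) (hb : IsAlgebraic ℚ b) (hc : IsAlgebraic ℚ c)
    (hne : ¬ (a = 0 ∧ b = 0 ∧ c = 0)) (h : a + b * E + c * P = 0) :
    ∃ α β : ℂ, IsAlgebraic ℚ α ∧ IsAlgebraic ℚ β ∧ β ≠ 0 ∧ E = α + β * P := by
  have hb0 : b ≠ 0 := by
    rintro rfl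
    obtain ⟨h1, h2⟩ := one_indep Real.pi LW.transcendental_pi a c ha hc (by linear_combination h)
    exact hne ⟨h1, rfl, h2⟩
  have hc0 : c ≠ 0 := by
    rintro rfl
    obtain ⟨h1, h2⟩ := one_indep (Real.exp 1) LW.transcendental_exp_one a b ha hb
      (by linear_combination h)
    exact hb0 h2
  refine ⟨-a / b, -c / b, ha.neg.mul hb.inv, hc.neg.mul hb.inv,
    div_ne_zero (neg_ne_zero.mpr hc0) hb0, ?_⟩
  field_simp
  linear_combination h

/-- the strong six exponentials theorem for `x = (1, π)`, `y = (1, y₁, y₂)` -/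
theorem six {y₁ y₂ : ℂ} (h1 : y₁ ∈ Lt) (h2 : y₂ ∈ Lt) (h3 : P * y₁ ∈ Lt) (h4 : P * y₂ ∈ Lt)
    (hind : ∀ c₀ c₁ c₂ : ℂ, IsAlgebraic ℚ c₀ → IsAlgebraic ℚ c₁ → IsAlgebraic ℚ c₂ →
      c₀ + c₁ * y₁ + c₂ * y₂ = 0 → c₀ = 0 ∧ c₁ = 0 ∧ c₂ = 0) : False := by
  refine strong_six ![1, P] ![1, y₁, y₂] ?_ ?_ ?_
  · intro a c ha hc hac
    exact one_indep Real.pi LW.transcendental_pi a c ha hc hac
  · intro c hc hsum
    rw [Fin.sum_univ_three] at hsum
    simp only [Matrix.cons_val_zero, Matrix.cons_val_one, Matrix.cons_val] at hsum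
    obtain ⟨e0, e1, e2⟩ := hind (c 0) (c 1) (c 2) (hc 0) (hc 1) (hc 2)
      (by linear_combination hsum)
    intro j
    fin_cases j
    · exact e0
    · exact e1
    · exact e2
  · intro i j
    fin_cases i <;> fin_cases j
    · simpa using Lt_one
    · simpa using h1
    · simpa using h2
    · simpa using pi_mem
    · simpa using h3
    · simpa using h4

section Rel

variable {α β : ℂ} (hα : IsAlgebraic ℚ α) (hβ : IsAlgebraic ℚ β) (hβ0 : β ≠ 0) (hE : E = α + β * P)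

include hα hβ hβ0 hE

/-- transfer from `e` to `π` -/
theorem tr {z : ℂ} (hz : z ∈ Lt) (h : E * z ∈ Lt) : P * z ∈ Lt := by
  have h1 : P * z = β⁻¹ * (E * z - α * z) := by
    rw [hE]; field_simp; ring
  rw [h1]
  exact Lt_mul hβ.inv (Lt.sub_mem h (Lt_mul hα hz))

theorem piLog {n : ℕ} (hn : 2 ≤ n)
    (h : IsAlgebraic ℚ ((n : ℝ) ^ Real.exp 1) ∨ IsAlgebraic ℚ ((n : ℝ) ^ Real.pi)) :
    P * L n ∈ Lt := by
  rcases h with h | h
  · exact tr hα hβ hβ0 hE (log_mem n hn) (pow_mem n hn _ h)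
  · exact pow_mem n hn _ h

omit hα hβ hβ0 hE in
theorem log_pos' {n : ℕ} (hn : 2 ≤ n) : 0 < Real.log n := Real.log_pos (by exact_mod_cast hn)

omit hα hβ hβ0 hE in
/-- `1`, `log n`, `b log n` are independent over the algebraic numbers if `n ^ b` is algebraic -/
theorem ind_log {b : ℝ} (hb : Transcendental ℚ b) {n : ℕ} (hn : 2 ≤ n)
    (h : IsAlgebraic ℚ ((n : ℝ) ^ b)) {c₀ c₁ c₂ : ℂ} (h0 : IsAlgebraic ℚ c₀)
    (h1 : IsAlgebraic ℚ c₁) (h2 : IsAlgebraic ℚ c₂) (hs : c₀ + c₁ * L n + c₂ * ((b : ℂ) * L n) = 0) :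
    c₀ = 0 ∧ c₁ = 0 ∧ c₂ = 0 := by
  have hlog := log_pos' hn
  have hω : LinearIndependent ℚ (![L n, (b : ℂ) * L n] : Fin 2 → ℂ) := by
    rw [LinearIndependent.pair_iff]
    intro s t hst
    have hre := congrArg Complex.re hst
    simp only [Rat.smul_def, Complex.add_re, Complex.mul_re, Complex.mul_im, Complex.ratCast_re,
      Complex.ratCast_im, Complex.ofReal_re, Complex.ofReal_im, Complex.zero_re, mul_zero, zero_mul,
      sub_zero, add_zero] at hre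
    have h3 : ((s : ℝ) + t * b) * Real.log n = 0 := by linear_combination hre
    have h4 : (s : ℝ) + t * b = 0 := (mul_eq_zero.mp h3).resolve_right hlog.ne'
    by_cases ht : t = 0
    · subst ht
      refine ⟨?_, rfl⟩
      have h5 : (s : ℝ) = 0 := by simpa using h4
      exact_mod_cast h5
    · exfalso
      apply hb
      have ht' : (t : ℝ) ≠ 0 := by exact_mod_cast ht
      have h5 : b = ((-s / t : ℚ) : ℝ) := by
        push_cast
        field_simp
        linear_combination h4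
      rw [h5]
      exact isAlgebraic_algebraMap (-s / t : ℚ)
  have := Pool.Agent.H297R2.baker_inhom (![L n, (b : ℂ) * L n] : Fin 2 → ℂ) (by
      intro i
      fin_cases i
      · show IsAlgebraic ℚ (Complex.exp (L n))
        rw [← Complex.ofReal_exp, Real.exp_log (by positivity)]
        exact_mod_cast isAlgebraic_nat n
      · show IsAlgebraic ℚ (Complex.exp ((b : ℂ) * L n))
        rw [exp_mul_log n hn b]
        exact alg_ofReal h) hω c₀ h0 ![c₁, c₂] (by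
      intro i
      fin_cases i
      · exact h1
      · exact h2) (by
      rw [Fin.sum_univ_two]
      simp only [Matrix.cons_val_zero, Matrix.cons_val_one]
      linear_combination hs)
  exact ⟨this.1, this.2 0, this.2 1⟩

theorem ind_piLog {n : ℕ} (hn : 2 ≤ n)
    (h : IsAlgebraic ℚ ((n : ℝ) ^ Real.exp 1) ∨ IsAlgebraic ℚ ((n : ℝ) ^ Real.pi))
    (c₀ c₁ c₂ : ℂ) (h0 : IsAlgebraic ℚ c₀) (h1 : IsAlgebraic ℚ c₁) (h2 : IsAlgebraic ℚ c₂)
    (hs : c₀ + c₁ * L n + c₂ * (P * L n) = 0) : c₀ = 0 ∧ c₁ = 0 ∧ c₂ = 0 := by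
  rcases h with h | h
  · have h3 : c₀ * β + (c₁ * β - c₂ * α) * L n + c₂ * (E * L n) = 0 := by
      rw [hE]
      linear_combination β * hs
    obtain ⟨e0, e1, e2⟩ := ind_log LW.transcendental_exp_one hn h (h0.mul hβ)
      ((h1.mul hβ).sub (h2.mul hα)) h2 h3
    subst e2
    refine ⟨(mul_eq_zero.mp e0).resolve_right hβ0, ?_, rfl⟩
    have : c₁ * β = 0 := by linear_combination e1
    exact (mul_eq_zero.mp this).resolve_right hβ0
  · exact ind_log LW.transcendental_pi hn h h0 h1 h2 hs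

/-- (ii) -/
theorem one_class : ∃ r : ℕ, 2 ≤ r ∧ ∀ n : ℕ, 2 ≤ n →
    (IsAlgebraic ℚ ((n : ℝ) ^ Real.exp 1) ∨ IsAlgebraic ℚ ((n : ℝ) ^ Real.pi)) →
    ∃ k : ℕ, n = r ^ k := by
  obtain ⟨r, hr, h⟩ := powers {n : ℕ | 2 ≤ n ∧ P * L n ∈ Lt} (fun n hn => hn.1) (by
      intro m hm n hn hi
      refine six (log_mem m hm.1) (log_mem n hn.1) hm.2 hn.2 ?_
      intro c₀ c₁ c₂ h0 h1 h2 hs
      have := baker_log ![m, n] (by
        intro i
        fin_cases i
        · exact hm.1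
        · exact hn.1) hi c₀ h0 ![c₁, c₂] (by
        intro i
        fin_cases i
        · exact h1
        · exact h2) (by
        rw [Fin.sum_univ_two]
        simp only [Matrix.cons_val_zero, Matrix.cons_val_one]
        linear_combination hs)
      exact ⟨this.1, this.2 0, this.2 1⟩) (by
      intro m hm k hk hmk
      refine ⟨hk, ?_⟩
      have h1 : L (m * k) = L m + L k := by
        have hm0 : (m : ℝ) ≠ 0 := by
          have := hm.1
          positivity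
        have hk0 : (k : ℝ) ≠ 0 := by positivity
        show (((Real.log ((m * k : ℕ) : ℝ)) : ℝ) : ℂ) = _
        rw [Nat.cast_mul, Real.log_mul hm0 hk0]
        push_cast
        rfl
      have h2 : P * L k = P * L (m * k) - P * L m := by rw [h1]; ring
      rw [h2]
      exact Lt.sub_mem hmk.2 hm.2)
  exact ⟨r, hr, fun n hn ha => h n ⟨hn, piLog hα hβ hβ0 hE hn ha⟩⟩

/-- degree two monomials -/
theorem deg2 {i j : ℕ} (hij : i + j = 2) {z : ℂ} (hz : z ∈ Lt) (hz1 : P * z ∈ Lt)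
    (h : E ^ i * P ^ j * z ∈ Lt) : P ^ 2 * z ∈ Lt := by
  have hcases : (i = 0 ∧ j = 2) ∨ (i = 1 ∧ j = 1) ∨ (i = 2 ∧ j = 0) := by omega
  rcases hcases with ⟨rfl, rfl⟩ | ⟨rfl, rfl⟩ | ⟨rfl, rfl⟩
  · simpa using h
  · have e : P ^ 2 * z = β⁻¹ * (E ^ 1 * P ^ 1 * z - α * (P * z)) := by
      rw [hE]; field_simp; ring
    rw [e]
    exact Lt_mul hβ.inv (Lt.sub_mem h (Lt_mul hα hz1))
  · have e : P ^ 2 * z = (β ^ 2)⁻¹ * (E ^ 2 * P ^ 0 * z - α ^ 2 * z - (2 * α * β) * (P * z)) := by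
      rw [hE]; field_simp; ring
    rw [e]
    refine Lt_mul (hβ.pow 2).inv (Lt.sub_mem (Lt.sub_mem h (Lt_mul (hα.pow 2) hz)) (Lt_mul ?_ hz1))
    exact ((isAlgebraic_natCast (R := ℚ) (A := ℂ) 2).mul hα).mul hβ

/-- degree three monomials -/
theorem deg3 {i j : ℕ} (hij : i + j = 3) (h2 : P ^ 2 ∈ Lt) (h : E ^ i * P ^ j ∈ Lt) :
    P ^ 3 ∈ Lt := by
  have hcases : (i = 0 ∧ j = 3) ∨ (i = 1 ∧ j = 2) ∨ (i = 2 ∧ j = 1) ∨ (i = 3 ∧ j = 0) := by omega
  have two : IsAlgebraic ℚ (2 : ℂ) := isAlgebraic_natCast (R := ℚ) (A := ℂ) 2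
  have three : IsAlgebraic ℚ (3 : ℂ) := isAlgebraic_natCast (R := ℚ) (A := ℂ) 3
  rcases hcases with ⟨rfl, rfl⟩ | ⟨rfl, rfl⟩ | ⟨rfl, rfl⟩ | ⟨rfl, rfl⟩
  · simpa using h
  · have e : P ^ 3 = β⁻¹ * (E ^ 1 * P ^ 2 - α * P ^ 2) := by
      rw [hE]; field_simp; ring
    rw [e]
    exact Lt_mul hβ.inv (Lt.sub_mem h (Lt_mul hα h2))
  · have e : P ^ 3 = (β ^ 2)⁻¹ * (E ^ 2 * P ^ 1 - α ^ 2 * P - (2 * α * β) * P ^ 2) := by
      rw [hE]; field_simp; ring
    rw [e]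
    exact Lt_mul (hβ.pow 2).inv (Lt.sub_mem (Lt.sub_mem h (Lt_mul (hα.pow 2) pi_mem))
      (Lt_mul ((two.mul hα).mul hβ) h2))
  · have e : P ^ 3 = (β ^ 3)⁻¹ * (E ^ 3 * P ^ 0 - α ^ 3 - (3 * α ^ 2 * β) * P
        - (3 * α * β ^ 2) * P ^ 2) := by
      rw [hE]; field_simp; ring
    rw [e]
    exact Lt_mul (hβ.pow 3).inv (Lt.sub_mem (Lt.sub_mem (Lt.sub_mem h (Lt_alg (hα.pow 3)))
      (Lt_mul ((three.mul (hα.pow 2)).mul hβ) pi_mem)) (Lt_mul ((three.mul hα).mul (hβ.pow 2)) h2))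

omit hα hβ hβ0 hE in
theorem mem_of_exp {γ z : ℂ} (hγ : IsAlgebraic ℚ γ) (hγ0 : γ ≠ 0)
    (h : IsAlgebraic ℚ (Complex.exp (γ * z))) : z ∈ Lt := by
  have h1 := Lt_mul hγ.inv (Lt_log h)
  have h2 : γ⁻¹ * (γ * z) = z := by field_simp
  rwa [h2] at h1

/-- (iii), first part -/
theorem sq_not_mem {n : ℕ} (hn : 2 ≤ n) (hP : P * L n ∈ Lt) : P ^ 2 ∉ Lt := by
  intro h
  refine six (y₁ := P) (y₂ := L n) pi_mem (log_mem n hn) (by rwa [← sq]) hP ?_
  intro c₀ c₁ c₂ h0 h1 h2 hs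
  exact Pool.Agent.H364R2.PiE.pair_indep (lam := Real.log n) (log_pos' hn).ne' (by
    rw [← Complex.ofReal_exp, Real.exp_log (by positivity)]
    exact_mod_cast isAlgebraic_nat n) h0 h1 h2 hs

/-- (iii), second part -/
theorem sq_log_not_mem {n : ℕ} (hn : 2 ≤ n)
    (h : IsAlgebraic ℚ ((n : ℝ) ^ Real.exp 1) ∨ IsAlgebraic ℚ ((n : ℝ) ^ Real.pi)) :
    P ^ 2 * L n ∉ Lt := by
  intro hm
  have hP := piLog hα hβ hβ0 hE hn h
  refine six (y₁ := L n) (y₂ := P * L n) (log_mem n hn) hP hP (by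
    have : P * (P * L n) = P ^ 2 * L n := by ring
    rwa [this]) (ind_piLog hα hβ hβ0 hE hn h)

omit hα hβ hβ0 hE in
/-- (iv) -/
theorem sq_cube (h2 : P ^ 2 ∈ Lt) (h3 : P ^ 3 ∈ Lt) : False := by
  refine six (y₁ := P) (y₂ := P ^ 2) pi_mem h2 (by rwa [← sq]) (by
    have : P * P ^ 2 = P ^ 3 := by ring
    rwa [this]) ?_
  intro c₀ c₁ c₂ h0 h1 h2 hs
  have hc2 : c₂ = 0 := by
    by_contra hc
    apply LW.transcendental_pi
    rw [← alg_ofReal_iff]
    have two : IsAlgebraic ℚ (2 : ℂ) := isAlgebraic_natCast (R := ℚ) (A := ℂ) 2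
    have four : IsAlgebraic ℚ (4 : ℂ) := isAlgebraic_natCast (R := ℚ) (A := ℂ) 4
    have e1 : (2 * c₂ * P + c₁) ^ 2 = c₁ ^ 2 - 4 * c₀ * c₂ := by
      linear_combination 4 * c₂ * hs
    have e2 : IsAlgebraic ℚ ((2 * c₂ * P + c₁) ^ 2) := by
      rw [e1]
      exact (h1.pow 2).sub ((four.mul h0).mul h2)
    have e3 : IsAlgebraic ℚ (2 * c₂ * P + c₁) := IsAlgebraic.of_pow (by norm_num) e2
    have e4 : P = (2 * c₂)⁻¹ * ((2 * c₂ * P + c₁) - c₁) := by
      field_simp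
      ring
    show IsAlgebraic ℚ P
    rw [e4]
    exact (two.mul h2).inv.mul (e3.sub h1)
  subst hc2
  obtain ⟨e0, e1⟩ := one_indep Real.pi LW.transcendental_pi c₀ c₁ h0 h1 (by linear_combination hs)
  exact ⟨e0, e1, rfl⟩

/-- (i) -/
theorem exp_e {γ : ℝ} (hγ : IsAlgebraic ℚ γ) (hγ0 : γ ≠ 0) :
    Transcendental ℚ (Real.exp (γ * Real.exp 1)) := by
  intro h
  have hγC : IsAlgebraic ℚ (γ : ℂ) := alg_ofReal hγ
  have h1 : IsAlgebraic ℚ (Complex.exp ((γ * Real.exp 1 : ℝ) : ℂ)) := by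
    rw [← Complex.ofReal_exp]
    exact alg_ofReal h
  have h2 := Pool.Agent.H364R2.PiE.pair_indep (lam := γ * Real.exp 1)
    (mul_ne_zero hγ0 (Real.exp_pos 1).ne') h1 (hγC.mul hα) (hγC.mul hβ) isAlgebraic_one.neg (by
      have : ((γ * Real.exp 1 : ℝ) : ℂ) = (γ : ℂ) * E := by push_cast; rfl
      rw [this, hE]
      ring)
  exact one_ne_zero (neg_eq_zero.mp h2.2.2)

end Rel

theorem final (a b c : ℂ) (ha : IsAlgebraic ℚ a) (hb : IsAlgebraic ℚ b) (hc : IsAlgebraic ℚ c)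
    (hne : ¬ (a = 0 ∧ b = 0 ∧ c = 0)) (h : a + b * E + c * P = 0) :
    (∀ γ : ℝ, IsAlgebraic ℚ γ → γ ≠ 0 → Transcendental ℚ (Real.exp (γ * Real.exp 1))) ∧
    (∃ r : ℕ, 2 ≤ r ∧ ∀ n : ℕ, 2 ≤ n →
      (IsAlgebraic ℚ ((n : ℝ) ^ Real.exp 1) ∨ IsAlgebraic ℚ ((n : ℝ) ^ Real.pi)) →
      ∃ k : ℕ, n = r ^ k) ∧
    (∀ n : ℕ, 2 ≤ n →
      (IsAlgebraic ℚ ((n : ℝ) ^ Real.exp 1) ∨ IsAlgebraic ℚ ((n : ℝ) ^ Real.pi)) →
      ∀ i j : ℕ, i + j = 2 → ∀ γ : ℂ, IsAlgebraic ℚ γ → γ ≠ 0 →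
        Transcendental ℚ (Complex.exp (γ * (E ^ i * P ^ j))) ∧
        Transcendental ℚ (Complex.exp (γ * (E ^ i * P ^ j * L n)))) ∧
    (∀ i j k l : ℕ, i + j = 2 → k + l = 3 → ∀ γ δ : ℂ, IsAlgebraic ℚ γ → IsAlgebraic ℚ δ →
      γ ≠ 0 → δ ≠ 0 →
      Transcendental ℚ (Complex.exp (γ * (E ^ i * P ^ j))) ∨
        Transcendental ℚ (Complex.exp (δ * (E ^ k * P ^ l)))) := by
  obtain ⟨α, β, hα, hβ, hβ0, hE⟩ := form ha hb hc hne h
  refine ⟨fun γ h1 h2 => exp_e hα hβ hβ0 hE h1 h2, one_class hα hβ hβ0 hE, ?_, ?_⟩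
  · intro n hn hna i j hij γ hγ hγ0
    have hP := piLog hα hβ hβ0 hE hn hna
    constructor
    · intro halg
      have h1 := mem_of_exp hγ hγ0 halg
      apply sq_not_mem hα hβ hβ0 hE hn hP
      have := deg2 hα hβ hβ0 hE hij (z := 1) Lt_one (by simpa using pi_mem) (by simpa using h1)
      simpa using this
    · intro halg
      have h1 := mem_of_exp hγ hγ0 halg
      apply sq_log_not_mem hα hβ hβ0 hE hn hna
      exact deg2 hα hβ hβ0 hE hij (log_mem n hn) hP h1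
  · intro i j k l hij hkl γ δ hγ hδ hγ0 hδ0
    by_contra hcon
    push Not at hcon
    obtain ⟨h1, h2⟩ := hcon
    simp only [Transcendental, not_not] at h1 h2
    have h3 := mem_of_exp hγ hγ0 h1
    have h4 := mem_of_exp hδ hδ0 h2
    have h5 : P ^ 2 ∈ Lt := by
      have := deg2 hα hβ hβ0 hE hij (z := 1) Lt_one (by simpa using pi_mem) (by simpa using h3)
      simpa using this
    exact sq_cube h5 (deg3 hα hβ hβ0 hE hkl h5 h4)

end Pool.Agent.H118R4.EP
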